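import Pool.Agent.Helper23.KB.Defs

/-!
# Kobon triangles: basic facts on the half-edge model
-/

namespace Pool.Agent.Helper23.KB

open Finset

namespace KM

variable {n : ℕ} (K : KM n)

/-- rotation at the vertex (counterclockwise for `o = true`) -/
def r (o : Bool) (h : K.H) : K.H := if o then K.nx h else K.nx.symm h

/-- the sector on side `o` of `h` (between `h` and `r o h`) is a marked triangle -/
def tr (o : Bool) (h : K.H) : Bool := if o then K.tri h else K.tri (K.nx.symm h)

/-- the opposite half-edge of the same line at the same vertex -/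
def op (h : K.H) : K.H := K.nx^[K.m h] h

@[simp] lemma r_true (h : K.H) : K.r true h = K.nx h := rfl
@[simp] lemma r_false (h : K.H) : K.r false h = K.nx.symm h := rfl
@[simp] lemma tr_true (h : K.H) : K.tr true h = K.tri h := rfl
@[simp] lemma tr_false (h : K.H) : K.tr false h = K.tri (K.nx.symm h) := rfl

lemma r_r (o : Bool) (h : K.H) : K.r (!o) (K.r o h) = h := by
  cases o <;> simp [r]

lemma r_r' (o : Bool) (h : K.H) : K.r o (K.r (!o) h) = h := by
  cases o <;> simp [r]

lemma r_inj (o : Bool) {a b : K.H} (h : K.r o a = K.r o b) : a = b := by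
  have := congrArg (K.r (!o)) h
  rwa [r_r, r_r] at this

lemma m_symm (h : K.H) : K.m (K.nx.symm h) = K.m h := by
  have := K.m_nx (K.nx.symm h)
  rw [Equiv.apply_symm_apply] at this
  exact this.symm

lemma vt_symm (h : K.H) : K.vt (K.nx.symm h) = K.vt h := by
  have := K.vt_nx (K.nx.symm h)
  rw [Equiv.apply_symm_apply] at this
  exact this.symm

@[simp] lemma m_r (o : Bool) (h : K.H) : K.m (K.r o h) = K.m h := by
  cases o
  · exact K.m_symm h
  · exact K.m_nx h

@[simp] lemma vt_r (o : Bool) (h : K.H) : K.vt (K.r o h) = K.vt h := by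
  cases o
  · exact K.vt_symm h
  · exact K.vt_nx h

lemma m_iter (k : ℕ) (h : K.H) : K.m (K.nx^[k] h) = K.m h := by
  induction k generalizing h with
  | zero => rfl
  | succ k ih => rw [Function.iterate_succ_apply, ih, K.m_nx]

lemma vt_iter (k : ℕ) (h : K.H) : K.vt (K.nx^[k] h) = K.vt h := by
  induction k generalizing h with
  | zero => rfl
  | succ k ih => rw [Function.iterate_succ_apply, ih, K.vt_nx]

@[simp] lemma m_op (h : K.H) : K.m (K.op h) = K.m h := K.m_iter _ h
@[simp] lemma vt_op (h : K.H) : K.vt (K.op h) = K.vt h := K.vt_iter _ h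
@[simp] lemma ln_op' (h : K.H) : K.ln (K.op h) = K.ln h := K.ln_op h
@[simp] lemma dr_op' (h : K.H) : K.dr (K.op h) = !(K.dr h) := K.dr_op h
@[simp] lemma ps_op (h : K.H) : K.ps (K.op h) = K.ps h :=
  K.ps_vt _ _ (K.ln_op' h) (K.vt_op h)

@[simp] lemma op_op (h : K.H) : K.op (K.op h) = h := by
  unfold op
  rw [K.m_iter, ← Function.iterate_add_apply, ← two_mul]
  exact K.per h

lemma op_ne (h : K.H) : K.op h ≠ h := by
  intro e
  have := K.dr_op' h
  rw [e] at this
  cases hd : K.dr h <;> simp [hd] at this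

lemma op_nx (h : K.H) : K.op (K.nx h) = K.nx (K.op h) := by
  unfold op
  rw [K.m_nx, ← Function.iterate_succ_apply, Function.iterate_succ_apply']

lemma op_symm (h : K.H) : K.op (K.nx.symm h) = K.nx.symm (K.op h) := by
  apply K.nx.injective
  rw [← op_nx, Equiv.apply_symm_apply, Equiv.apply_symm_apply]

lemma op_r (o : Bool) (h : K.H) : K.op (K.r o h) = K.r o (K.op h) := by
  cases o
  · exact K.op_symm h
  · exact K.op_nx h

/-- `m` steps in either direction lead to the opposite half-edge -/
lemma r_iter (o : Bool) (h : K.H) : (K.r o)^[K.m h] h = K.op h := by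
  cases o
  · have e : K.nx^[K.m h] ((K.r false)^[K.m h] h) = h := by
      have key : ∀ k (x : K.H), K.nx^[k] ((K.r false)^[k] x) = x := by
        intro k
        induction k with
        | zero => intro x; rfl
        | succ k ih =>
          intro x
          rw [Function.iterate_succ_apply', Function.iterate_succ_apply]
          rw [ih]
          simp
      exact key _ _
    have e2 : K.nx^[K.m h] (K.op h) = h := by
      have := K.op_op h
      unfold op at this ⊢
      rw [K.m_iter] at this
      exact this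
    exact (K.nx.injective.iterate (K.m h)) (e.trans e2.symm)
  · rfl

lemma r2 {o : Bool} {h : K.H} (hm : K.m h = 2) : K.r o (K.r o h) = K.op h := by
  rw [← K.r_iter o h, hm]; rfl

lemma r3 {o : Bool} {h : K.H} (hm : K.m h = 3) : K.r o (K.r o (K.r o h)) = K.op h := by
  rw [← K.r_iter o h, hm]; rfl

lemma r4 {o : Bool} {h : K.H} (hm : K.m h = 4) :
    K.r o (K.r o (K.r o (K.r o h))) = K.op h := by
  rw [← K.r_iter o h, hm]; rfl

/-- at a simple vertex the two neighbours of `h` are opposite -/
lemma r2' {o : Bool} {h : K.H} (hm : K.m h = 2) : K.r (!o) h = K.op (K.r o h) := by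
  have h1 : K.m (K.r (!o) h) = 2 := by rw [m_r, hm]
  have h2 := K.r2 (o := o) h1
  rw [K.r_r'] at h2
  rw [h2, op_op]

lemma tr_r (o : Bool) (h : K.H) : K.tr (!o) (K.r o h) = K.tr o h := by
  cases o <;> simp [r, tr]

lemma tr_r' (o : Bool) (h : K.H) : K.tr o (K.r (!o) h) = K.tr (!o) h := by
  cases o <;> simp [r, tr]

lemma rv_eq_iff (a b : K.H) : K.rv a = b ↔ a = K.rv b := by
  constructor
  · intro h; rw [← h, K.rv_rv]
  · intro h; rw [h, K.rv_rv]

lemma rv_inj {a b : K.H} (h : K.rv a = K.rv b) : a = b := by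
  rw [← K.rv_rv a, h, K.rv_rv]

lemma rv_ne {h : K.H} (hh : K.rv h ≠ h) : K.rv (K.rv h) ≠ K.rv h := by
  intro e; exact hh (K.rv_inj e)

/-- `rv` as a permutation -/
def rvE : Equiv.Perm K.H := ⟨K.rv, K.rv, K.rv_rv, K.rv_rv⟩
@[simp] lemma rvE_apply (h : K.H) : K.rvE h = K.rv h := rfl

/-- `op` as a permutation -/
def opE : Equiv.Perm K.H := ⟨K.op, K.op, K.op_op, K.op_op⟩
@[simp] lemma opE_apply (h : K.H) : K.opE h = K.op h := rfl

/-- `r o` as a permutation -/
def rE (o : Bool) : Equiv.Perm K.H := if o then K.nx else K.nx.symm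
@[simp] lemma rE_apply (o : Bool) (h : K.H) : K.rE o h = K.r o h := by
  cases o <;> rfl

/-- the face to the left of `h` -/
lemma tri_aux {h : K.H} (ht : K.tri h = true) :
    K.tri (K.rv (K.nx h)) = true ∧
      K.rv (K.nx.symm (K.rv h)) = K.nx (K.rv (K.nx h)) := by
  have h1 := K.tri_face h ht
  have h2 := K.tri_face _ h1
  have h3 := K.tri_three h ht
  have h4 : K.rv (K.nx.symm (K.rv (K.nx.symm (K.rv h)))) = K.nx h := by
    conv_rhs => rw [← h3]
    rw [Equiv.apply_symm_apply]
  have h5 : K.nx.symm (K.rv (K.nx.symm (K.rv h))) = K.rv (K.nx h) := by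
    rw [← h4, K.rv_rv]
  constructor
  · rw [← h5]; exact h2
  · rw [← h5, Equiv.apply_symm_apply]

lemma tr_rv {o : Bool} {h : K.H} (ht : K.tr o h = true) : K.tr (!o) (K.rv h) = true := by
  cases o
  · have := (K.tri_aux (h := K.nx.symm h) ht).1
    rw [Equiv.apply_symm_apply] at this
    exact this
  · exact K.tri_face h ht

lemma tr_ray {o : Bool} {h : K.H} (ht : K.tr o h = true) : K.rv h ≠ h := by
  cases o
  · intro e
    have := K.tr_rv ht
    rw [e] at this
    exact K.tri_ray h this e
  · exact K.tri_ray h ht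

lemma tr_rv_eq {o : Bool} {h : K.H} : K.tr (!o) (K.rv h) = K.tr o h ∨ K.rv h = h := by
  by_cases hr : K.rv h = h
  · right; exact hr
  · left
    cases h1 : K.tr o h
    · cases h2 : K.tr (!o) (K.rv h)
      · rfl
      · have := K.tr_rv h2
        rw [K.rv_rv, Bool.not_not, h1] at this
        exact this.symm
    · exact K.tr_rv h1

lemma tr_rv_iff (o : Bool) {h : K.H} (hr : K.rv h ≠ h) : K.tr (!o) (K.rv h) = K.tr o h :=
  (K.tr_rv_eq).resolve_right hr

lemma tr_rv_iff' (o : Bool) {h : K.H} (hr : K.rv h ≠ h) : K.tr o (K.rv h) = K.tr (!o) h := by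
  have := K.tr_rv_iff (!o) hr
  rwa [Bool.not_not] at this

/-- sectors at rays are not marked -/
lemma tr_of_ray {o : Bool} {h : K.H} (hr : K.rv h = h) : K.tr o h = false := by
  cases ht : K.tr o h
  · rfl
  · exact absurd hr (K.tr_ray ht)

/-- the third vertex of the triangle on side `o` of `h` -/
lemma third {o : Bool} {h : K.H} (ht : K.tr o h = true) :
    K.rv (K.r (!o) (K.rv h)) = K.r o (K.rv (K.r o h)) := by
  cases o
  · have := (K.tri_aux (h := K.nx.symm h) ht).2
    rw [Equiv.apply_symm_apply] at this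
    change K.rv (K.nx (K.rv h)) = K.nx.symm (K.rv (K.nx.symm h))
    rw [← this, K.rv_rv]
  · exact (K.tri_aux ht).2

lemma tr_r_self {o : Bool} {h : K.H} (ht : K.tr o h = true) : K.tr (!o) (K.r o h) = true := by
  rw [tr_r]; exact ht

/-- double half-edge -/
def Dd (h : K.H) : Bool := K.tr true h && K.tr false h

/-- single half-edge -/
def Sg (h : K.H) : Bool := K.tr true h != K.tr false h

lemma Dd_iff (o : Bool) (h : K.H) : K.Dd h = true ↔ K.tr o h = true ∧ K.tr (!o) h = true := by
  cases o <;> simp [Dd, and_comm]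

lemma Sg_iff (o : Bool) (h : K.H) : K.Sg h = true ↔ K.tr o h = !(K.tr (!o) h) := by
  cases o <;> cases h1 : K.tri h <;> cases h2 : K.tri (K.nx.symm h) <;> simp [Sg, h1, h2]

lemma Dd_tr {o : Bool} {h : K.H} (hd : K.Dd h = true) : K.tr o h = true :=
  ((K.Dd_iff o h).mp hd).1

lemma Dd_ray {h : K.H} (hd : K.Dd h = true) : K.rv h ≠ h := K.tr_ray (K.Dd_tr (o := true) hd)

lemma Sg_ray {h : K.H} (hd : K.Sg h = true) : K.rv h ≠ h := by
  intro e
  simp only [Sg, K.tr_of_ray e] at hd
  simp at hd

lemma Dd_rv (h : K.H) : K.Dd (K.rv h) = K.Dd h := by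
  by_cases hr : K.rv h = h
  · rw [hr]
  · unfold Dd
    rw [K.tr_rv_iff' true hr, K.tr_rv_iff' false hr]
    exact Bool.and_comm _ _

lemma Sg_rv (h : K.H) : K.Sg (K.rv h) = K.Sg h := by
  by_cases hr : K.rv h = h
  · rw [hr]
  · unfold Sg
    rw [K.tr_rv_iff' true hr, K.tr_rv_iff' false hr]
    change (K.tr false h != K.tr true h) = _
    cases K.tr true h <;> cases K.tr false h <;> rfl

lemma Dd_not_Sg {h : K.H} (hd : K.Dd h = true) : K.Sg h = false := by
  unfold Dd at hd
  unfold Sg
  cases h1 : K.tr true h <;> cases h2 : K.tr false h <;> simp_all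

/-- a half-edge next to a marked sector is single or double -/
lemma Sg_or_Dd {o : Bool} {h : K.H} (ht : K.tr o h = true) : K.Sg h = true ∨ K.Dd h = true := by
  unfold Dd Sg
  cases o <;> cases h1 : K.tr true h <;> cases h2 : K.tr false h <;> simp_all

/-- the colour of the marked triangle at a single half-edge -/
def cs (h : K.H) : Bool := if K.tri h then K.col h else K.col (K.nx.symm h)

lemma col_symm (h : K.H) : K.col (K.nx.symm h) = !(K.col h) := by
  have := K.col_nx (K.nx.symm h)
  rw [Equiv.apply_symm_apply] at this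
  rw [this, Bool.not_not]

lemma cs_rv {h : K.H} (hs : K.Sg h = true) : K.cs (K.rv h) = K.cs h := by
  have hr := K.Sg_ray hs
  have h1 : K.tri (K.rv h) = K.tr false h := K.tr_rv_iff' true hr
  have h2 := K.col_rv h hr
  have h3 := K.col_symm (K.rv h)
  have h4 := K.col_symm h
  unfold cs
  rw [h1]
  have hs' : K.tri h = !(K.tr false h) := (K.Sg_iff true h).mp hs
  rw [hs']
  cases h5 : K.tr false h
  · simp only [Bool.not_false]
    simp [h2]
  · simp only [Bool.not_true]
    simp
    rw [h2] at h3
    rw [h4, h3, Bool.not_not]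

/-- type `O`: simple vertex with exactly two marked sectors, opposite ones -/
def TO (h : K.H) : Bool :=
  decide (K.m h = 2) && (K.tri h == K.tri (K.op h)) && (K.tri (K.nx h) == K.tri (K.nx.symm h)) &&
    (K.tri h != K.tri (K.nx h))

/-- `g` is the first half-edge of a marked sector opposite to a sector between two rays -/
def wg (g : K.H) : Bool :=
  K.tri g && decide (K.rv (K.op g) = K.op g) && decide (K.rv (K.nx (K.op g)) = K.nx (K.op g))

/-- type `W` (wedge) -/
def TW (h : K.H) : Bool :=
  decide (K.m h = 2) && (K.wg h || K.wg (K.nx h) || K.wg (K.op h) || K.wg (K.nx.symm h))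

/-- the vertex of `h` is of type `O` or `W` -/
def cost (h : K.H) : Bool := K.TO h || K.TW h

/-- plateau end -/
def PE (h : K.H) : Bool := K.Sg h && !(K.cost h)

/-- half of a single edge both halves of which are plateau ends -/
def Pi1 (h : K.H) : Bool := K.PE h && K.PE (K.rv h)

/-- at the vertex of `h` the line goes on with a single edge of the other colour leading to a
vertex of type `O` or `W` -/
def outc (h : K.H) : Bool :=
  K.Sg (K.op h) && (K.cs (K.op h) != K.cs h) && K.cost (K.rv (K.op h))

/-- half of a boosted edge -/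
def Bo (h : K.H) : Bool := K.Pi1 h && K.outc h && K.outc (K.rv h)

/-- ray at a wedge -/
def wr (h : K.H) : Bool := decide (K.rv h = h) && K.TW h

/-- states of a walk: exit half-edge and side; the current triangle is on side `!o` -/
abbrev St := K.H × Bool

/-- the walk goes on -/
def cont (s : K.St) : Prop := K.tr s.2 s.1 = true ∧ K.m s.1 ≤ 3

/-- next state -/
def nextS (s : K.St) : K.St := (K.r (!s.2) (K.rv s.1), !s.2)

/-- starts of walks: the corners of triangles at simple vertices, in two directions -/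
def start (s : K.St) : Prop := K.m s.1 = 2 ∧ K.tr (!s.2) s.1 = true

/-- the walk from `s` reaches `t` in `k` steps -/
def Wk (s : K.St) : ℕ → K.St → Prop
  | 0, t => t = s
  | k+1, t => ∃ u, Wk s k u ∧ K.cont u ∧ t = K.nextS u

/-- states reached by walks from starts -/
def Rc (t : K.St) : Prop := ∃ s k, K.start s ∧ K.Wk s k t

/-- `t` is the terminal state of the walk from the start `s` -/
def Lead (s t : K.St) : Prop := K.start s ∧ (∃ k, K.Wk s k t) ∧ ¬ K.cont t

end KM

end Pool.Agent.Helper23.KB
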