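import Pool.Agent.Helper23.KB.Api

/-!
# Kobon triangles: statements of the modules of the upper bound
-/

namespace Pool.Agent.Helper23.KB

open Finset

namespace KM

variable {n : ℕ} (K : KM n)

/-- the continuation of a half-edge beyond its other end -/
def fw (h : K.H) : K.H := K.op (K.rv h)

/-! ### vertex types -/

/-- the double half-edge of a vertex of type `E2` (simple, the opposite half-edge is a ray) -/
def e2 (h : K.H) : Bool := decide (K.m h = 2) && K.Dd h && decide (K.rv (K.op h) = K.op h)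

/-- the double half-edge of a vertex of type `S2b` -/
def s2 (h : K.H) : Bool :=
  decide (K.m h = 2) && K.Dd h && !(decide (K.rv (K.op h) = K.op h)) && !(K.Dd (K.op h)) &&
    !(K.Dd (K.nx h)) && !(K.Dd (K.nx.symm h))

/-- half-edge at a vertex of type `S4` (simple, four triangles) -/
def s4 (h : K.H) : Bool :=
  decide (K.m h = 2) && K.Dd h && K.Dd (K.nx h) && K.Dd (K.op h) && K.Dd (K.nx.symm h)

/-- unused half-edge or ray at a triple vertex -/
def ur (h : K.H) : Bool := decide (K.m h = 3) && !(K.Sg h) && !(K.Dd h)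

/-- single half-edge at a vertex of multiplicity at least four -/
def sm (h : K.H) : Bool := decide (4 ≤ K.m h) && K.Sg h

/-- half-edge at a full vertex of multiplicity four -/
def vf (h : K.H) : Bool := decide (K.m h = 4) && decide (∀ k : Fin 8, K.tri (K.nx^[(k : ℕ)] h) = true)

/-! ### claims -/

/-- the state is reached by a walk (as a Boolean) -/
noncomputable def rc (t : K.St) : Bool := @decide (K.Rc t) (Classical.propDecidable _)

lemma rc_iff (t : K.St) : K.rc t = true ↔ K.Rc t := by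
  unfold rc
  exact @decide_eq_true_iff _ (Classical.propDecidable _)

/-- unclaimed single half-edge -/
noncomputable def un (h : K.H) : Bool := K.Sg h && !(K.rc (h, !(K.tri h)))

/-- slots -/
def slt (s : K.St) : Bool := decide (4 ≤ K.m s.1) && K.Dd s.1 && K.Dd (K.r (!s.2) s.1)

/-- starts as a Boolean -/
def stb (s : K.St) : Bool := decide (K.m s.1 = 2) && K.tr (!s.2) s.1

/-- the slot of the group of `β` on side `o` (the walk runs along the side `o` of `β`) -/
def sl (o : Bool) (β : K.H) : K.St := (K.r o (K.r o β), o)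

/-- this slot is claimed -/
noncomputable def clm (o : Bool) (β : K.H) : Bool := K.rc (K.sl o β)

/-! ### requests of the vertices of type E2 -/

/-- the neighbour of the E2 vertex on side `o` is of type O or W -/
def cw (o : Bool) (g : K.H) : Bool := K.cost (K.rv (K.r o g))
/-- half-edge at the apex `T` from `T` to `Y_o` -/
def yy (o : Bool) (g : K.H) : K.H := K.r (!o) (K.r (!o) (K.rv g))
/-- half-edge from `X` to the apex `T` (`T` triple) -/
def qq (g : K.H) : K.H := K.rv (K.op (K.rv g))
/-- both neighbours are of type O or W -/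
def bth (g : K.H) : Bool := K.e2 g && K.cw true g && K.cw false g
/-- both neighbours are of type O or W and the apex is of type T4a -/
def t4 (g : K.H) : Bool :=
  K.bth g && decide (K.m (K.rv g) = 3) && K.Sg (K.yy true g) && K.Sg (K.yy false g) &&
    K.Dd (K.op (K.rv g))
/-- request of a plateau end at `r o g` -/
def a1 (o : Bool) (g : K.H) : Bool := K.e2 g && !(K.cw o g)
/-- request of a plateau end at `rv (r o g)` -/
def a2 (o : Bool) (g : K.H) : Bool :=
  K.e2 g && !(K.cw o g) && K.cw (!o) g && decide (K.m (K.rv g) = 3)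
/-- request of a plateau end at `yy o g` -/
def a3 (o : Bool) (g : K.H) : Bool :=
  K.t4 g && !(K.cost (K.rv (K.yy o g))) &&
    ((decide (K.m (K.qq g) = 3) && !(K.cost (K.rv (K.yy (!o) g)))) ||
      (decide (K.m (K.qq g) = 2) && !(K.s2 (K.qq g))))
/-- request of a plateau end at `rv (yy o g)` -/
def a4 (o : Bool) (g : K.H) : Bool :=
  K.t4 g && decide (K.m (K.qq g) = 2) && !(K.s2 (K.qq g)) && !(K.cost (K.rv (K.yy o g))) &&
    K.cost (K.rv (K.yy (!o) g))
/-- request of a single half-edge at a vertex of multiplicity at least 4: `r (!o) (rv g)` -/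
def b1 (o : Bool) (g : K.H) : Bool := K.e2 g && K.cw o g && decide (4 ≤ K.m (K.rv g))
/-- request (2) of an unused half-edge or ray `yy o g` at a triple vertex -/
def b2 (o : Bool) (g : K.H) : Bool := K.bth g && decide (K.m (K.rv g) = 3) && K.ur (K.yy o g)
/-- request (2) of the vertex S2b `qq g` -/
def b3 (g : K.H) : Bool := K.t4 g && K.s2 (K.qq g)
/-- request (1) of the unclaimed half-edge `yy o g` -/
def b4 (_o : Bool) (g : K.H) : Bool := K.t4 g && decide (4 ≤ K.m (K.qq g))
/-- request (2) of the unclaimed half-edge `yy o g` -/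
def b5 (o : Bool) (g : K.H) : Bool :=
  K.t4 g && decide (K.m (K.qq g) = 3) && K.cost (K.rv (K.yy (!o) g))

/-! ### requests of the full vertices -/

/-- special simple neighbour (type S4, other neighbours triple, both far outer edges double) of a
full vertex; `h` points from the full vertex to it -/
def spc (h : K.H) : Bool :=
  K.vf h && K.s4 (K.rv h) && decide (K.m (K.rv (K.nx (K.rv h))) = 3) &&
    decide (K.m (K.rv (K.op (K.rv h))) = 3) && decide (K.m (K.rv (K.nx.symm (K.rv h))) = 3) &&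
    K.Dd (K.nx.symm (K.rv (K.nx (K.rv h)))) && K.Dd (K.nx.symm (K.rv (K.op (K.rv h))))

/-- the full vertex asks its simple neighbour -/
def ims (h : K.H) : Bool := K.vf h && decide (K.m (K.rv h) = 2) && !(K.spc h)

/-- the full vertex asks an occupant of the group of `h` -/
noncomputable def fg (h : K.H) : Bool :=
  K.vf h && !(K.spc h) && K.clm true h && K.clm false h &&
    !(decide (K.m (K.rv (K.nx h)) = 2)) && !(decide (K.m (K.rv (K.nx.symm h)) = 2))

/-- the apex of the start `s` is not of type O or W -/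
def nc (s : K.St) : Bool := !(K.cost (K.rv (K.r (!s.2) s.1)))

/-- payers -/
def Pay (s : K.St) : Prop := ∃ β o, K.fg β = true ∧ K.Lead s (K.sl o β) ∧ K.nc s = true ∧
  (o = false → ∀ s', K.Lead s' (K.sl true β) → K.nc s' = false)

noncomputable def pay (s : K.St) : Bool := @decide (K.Pay s) (Classical.propDecidable _)

lemma pay_iff (s : K.St) : K.pay s = true ↔ K.Pay s := by
  unfold pay
  exact @decide_eq_true_iff _ (Classical.propDecidable _)

/-- request of a plateau end at `r o k` (simple neighbour of type S3) -/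
def v1 (o : Bool) (k : K.H) : Bool := K.ims (K.rv k) && K.Sg (K.r o k) && K.Dd (K.r (!o) k)
/-- request (1) of the S2b vertex `k` -/
def v2 (k : K.H) : Bool := K.ims (K.rv k) && K.s2 k
/-- request (1) of the unclaimed half-edge `rv (r o k)` (simple neighbour of type E2) -/
def v3 (o : Bool) (k : K.H) : Bool :=
  K.ims (K.rv k) && K.e2 k && !(decide (K.m (K.rv (K.r o k)) = 2))
/-- request (1) of the S4 vertex -/
def v4 (k : K.H) : Bool := K.ims (K.rv k) && K.s4 k
/-- payer: request of the plateau end `rv (r s.2 s.1)` -/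
noncomputable def pB (s : K.St) : Bool := K.pay s && K.Sg (K.r s.2 s.1)
/-- payer: request of the plateau end `r (!s.2) s.1` -/
noncomputable def pX (s : K.St) : Bool :=
  K.pay s && K.Dd (K.r s.2 s.1) && K.Sg (K.r (!s.2) s.1)
/-- payer: request of the S4 vertex -/
noncomputable def p4 (s : K.St) : Bool :=
  K.pay s && K.Dd (K.r s.2 s.1) && K.Dd (K.r (!s.2) s.1)

/-! ### total requests -/

def askE (h : K.H) : ℕ :=
  ((K.a1 true (K.r false h)).toNat + (K.a1 false (K.r true h)).toNat) +
  ((K.a2 true (K.r false (K.rv h))).toNat + (K.a2 false (K.r true (K.rv h))).toNat) +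
  ((K.a3 true (K.rv (K.r true (K.r true h)))).toNat +
    (K.a3 false (K.rv (K.r false (K.r false h)))).toNat) +
  ((K.a4 true (K.rv (K.r true (K.r true (K.rv h))))).toNat +
    (K.a4 false (K.rv (K.r false (K.r false (K.rv h))))).toNat)

noncomputable def askV (h : K.H) : ℕ :=
  ((K.v1 true (K.r false h)).toNat + (K.v1 false (K.r true h)).toNat) +
  ((K.pB (K.r false (K.rv h), true)).toNat + (K.pB (K.r true (K.rv h), false)).toNat) +
  ((K.pX (K.r true h, true)).toNat + (K.pX (K.r false h, false)).toNat)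

def unE (h : K.H) : ℕ :=
  ((K.b4 true (K.rv (K.r true (K.r true h)))).toNat +
    (K.b4 false (K.rv (K.r false (K.r false h)))).toNat) +
  2 * ((K.b5 true (K.rv (K.r true (K.r true h)))).toNat +
    (K.b5 false (K.rv (K.r false (K.r false h)))).toNat)

def unV (h : K.H) : ℕ :=
  (K.v3 true (K.r false (K.rv h))).toNat + (K.v3 false (K.r true (K.rv h))).toNat

/-- weight -/
def wt (h : K.H) : ℤ :=
  3 * ((K.m h : ℤ) - 1) - 3 * ((K.tri h).toNat : ℤ) - 3 * ((K.tri (K.nx.symm h)).toNat : ℤ)

/-- number of slots at a half-edge -/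
def nsl (h : K.H) : ℕ := (K.slt (h, true)).toNat + (K.slt (h, false)).toNat

/-- the charge `G` -/
def gg (h : K.H) : ℤ :=
  K.wt h - 4 * ((decide (K.rv h = h)).toNat : ℤ) - ((K.PE h).toNat : ℤ) + ((K.wr h).toNat : ℤ)
    - 2 * ((K.Sg h).toNat : ℤ) - 2 * (K.nsl h : ℤ)
    + 2 * ((K.stb (h, true)).toNat + (K.stb (h, false)).toNat : ℤ)

end KM

/-! ### statements -/

/-- walks from starts never reach a simple vertex again -/
def StNS : Prop := ∀ (n : ℕ) (K : KM n) (s : K.St) (k : ℕ) (t : K.St),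
  K.start s → K.Wk s (k+1) t → K.m t.1 ≠ 2

def StUq : Prop := ∀ (n : ℕ) (K : KM n) (s s' t : K.St) (k k' : ℕ),
  K.start s → K.start s' → K.Wk s k t → K.Wk s' k' t → s = s' ∧ k = k'

def StEx : Prop := ∀ (n : ℕ) (K : KM n) (s : K.St), K.start s → ∃ t, K.Lead s t

/-- the number of starts is at most the number of claimed terminals -/
def StCount : Prop := ∀ (n : ℕ) (K : KM n),
  ∑ h, ((K.stb (h, true)).toNat + (K.stb (h, false)).toNat) + ∑ h, (K.un h).toNat
    + ∑ h, ((K.slt (h, true) && !(K.rc (h, true))).toNat +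
        (K.slt (h, false) && !(K.rc (h, false))).toNat)
  ≤ ∑ h, (K.Sg h).toNat + ∑ h, K.nsl h

/-- the range of a walk ending in a slot of a full vertex -/
def StRange : Prop := ∀ (n : ℕ) (K : KM n) (s : K.St) (β : K.H) (o : Bool),
  K.vf β = true → K.Lead s (K.sl o β) →
  (∃ j, (∀ i ≤ j, K.tr o (K.fw^[i] β) = true) ∧
    K.vt (K.rv (K.fw^[j] β)) = K.vt (K.rv (K.r (!s.2) s.1))) ∧
  (∃ a, K.ln a = K.ln (K.r o (K.rv (K.r o (K.r o β)))) ∧
    K.vt a = K.vt (K.rv (K.r (!s.2) s.1)))

/-- line lemma -/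
def StLine : Prop := ∀ (n : ℕ) (K : KM n), Even n → 4 ≤ n →
  ∑ h, (K.Pi1 h).toNat + ∑ h, (K.Bo h).toNat + ∑ h, (K.wr h).toNat ≤ ∑ h, (K.PE h).toNat

/-- sums of the charges at the vertices -/
def StG : Prop := ∀ (n : ℕ) (K : KM n), 4 ≤ n →
  (2 * ∑ h, (K.s2 h).toNat + ∑ h, (K.s4 h).toNat + 2 * ∑ h, (K.ur h).toNat
    + ∑ h, (K.sm h).toNat - 2 * ∑ h, (K.e2 h).toNat - ∑ h, (K.vf h).toNat : ℤ) ≤ ∑ h, K.gg h

/-- every E2 vertex finds its two units -/
def StE2 : Prop := ∀ (n : ℕ) (K : KM n) (g : K.H), Even n → 4 ≤ n →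
  2 * (K.e2 g).toNat ≤
    ((K.a1 true g).toNat + (K.a1 false g).toNat) + ((K.a2 true g).toNat + (K.a2 false g).toNat) +
    ((K.a3 true g).toNat + (K.a3 false g).toNat) + ((K.a4 true g).toNat + (K.a4 false g).toNat) +
    ((K.b1 true g).toNat + (K.b1 false g).toNat) +
    2 * ((K.b2 true g).toNat + (K.b2 false g).toNat) + 2 * (K.b3 g).toNat +
    ((K.b4 true g).toNat + (K.b4 false g).toNat) + 2 * ((K.b5 true g).toNat + (K.b5 false g).toNat)

/-- the capacity of plateau ends -/
def StPE : Prop := ∀ (n : ℕ) (K : KM n) (h : K.H), 4 ≤ n →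
  K.askE h + K.askV h ≤ (K.Pi1 h).toNat + (K.Bo h).toNat

/-- the capacity of unclaimed half-edges -/
def StUN : Prop := ∀ (n : ℕ) (K : KM n) (h : K.H), 4 ≤ n →
  K.unE h + K.unV h ≤ 2 * (K.un h).toNat

/-- the capacity of S2b vertices -/
def StS2 : Prop := ∀ (n : ℕ) (K : KM n) (h : K.H),
  2 * (K.b3 (K.rv (K.op (K.rv h)))).toNat + (K.v2 h).toNat ≤ 2 * (K.s2 h).toNat

/-- the capacity of single half-edges at vertices of multiplicity at least 4 -/
def StSM : Prop := ∀ (n : ℕ) (K : KM n) (h : K.H),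
  (K.b1 true (K.rv (K.r true h))).toNat + (K.b1 false (K.rv (K.r false h))).toNat ≤ (K.sm h).toNat

/-- the capacity of unused half-edges and rays at triple vertices -/
def StUR : Prop := ∀ (n : ℕ) (K : KM n) (h : K.H),
  (K.b2 true (K.rv (K.r true (K.r true h)))).toNat +
    (K.b2 false (K.rv (K.r false (K.r false h)))).toNat ≤ (K.ur h).toNat

/-- the balance of the full vertices -/
def StVB : Prop := ∀ (n : ℕ) (K : KM n),
  ∑ h, (K.vf h).toNat ≤ ∑ h, (K.ims h).toNat + ∑ h, (K.fg h).toNat +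
    2 * ∑ h, ((K.vf h && !(K.clm true h)).toNat + (K.vf h && !(K.clm false h)).toNat)

/-- the types of the simple neighbours -/
def StIm : Prop := ∀ (n : ℕ) (K : KM n) (k : K.H),
  (K.ims (K.rv k)).toNat ≤ ((K.v1 true k).toNat + (K.v1 false k).toNat) + (K.v2 k).toNat +
    ((K.v3 true k).toNat + (K.v3 false k).toNat) + (K.v4 k).toNat

/-- every asked group has a payer -/
def StPay : Prop := ∀ (n : ℕ) (K : KM n),
  ∑ h, (K.fg h).toNat ≤ ∑ h, ((K.pay (h, true)).toNat + (K.pay (h, false)).toNat)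

/-- facts about payers -/
def StPayF : Prop := ∀ (n : ℕ) (K : KM n) (s : K.St), K.pay s = true →
  K.m s.1 = 2 ∧ K.Dd s.1 = true ∧ K.m (K.rv s.1) = 3 ∧ K.Dd (K.r (!s.2) (K.rv s.1)) = true ∧
    3 ≤ K.m (K.rv (K.r (!s.2) (K.rv s.1))) ∧
    K.Dd (K.r s.2 (K.rv (K.r (!s.2) (K.rv s.1)))) = true ∧ K.nc s = true

/-- the capacity of S4 vertices -/
def StS4 : Prop := ∀ (n : ℕ) (K : KM n),
  ∑ h, (K.v4 h).toNat + ∑ h, ((K.p4 (h, true)).toNat + (K.p4 (h, false)).toNat) ≤
    ∑ h, (K.s4 h).toNat

end Pool.Agent.Helper23.KB
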