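import Pool.Agent.Helper23.KB.Loc
import Pool.Agent.Helper77.KBL.TLine
import Pool.Agent.Helper77.KBL.TG
import Pool.Agent.Helper77.KBL.TE2
import Pool.Agent.Helper77.KBL.TIm
import Pool.Agent.Helper77.KBL.TS4
import Pool.Agent.Helper31.KBC.Tr
import Pool.Agent.Helper31.KBC.PayP
import Pool.Agent.Helper32.KBV.VB
import Pool.Agent.Helper24.KB.TPE

/-!
# Kobon triangles: the combinatorial bound
-/

namespace Pool.Agent.Helper23.KB

open Pool.Agent.Helper77.KBL Pool.Agent.Helper31.KBC Pool.Agent.Helper32.KBV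
  Pool.Agent.Helper24.KB

/-- `3 #tri ≤ n (3 n - 7)` for every half-edge model with even `n ≥ 4` -/
theorem tBound : Bound :=
  bound_of Pool.Agent.Helper31.KBC.tCount Pool.Agent.Helper77.KBL.tLine
    Pool.Agent.Helper77.KBL.tG
    (Pool.Agent.Helper77.KBL.tE2 Pool.Agent.Helper31.KBC.tNS)
    (Pool.Agent.Helper24.KB.tPE Pool.Agent.Helper31.KBC.tPayF)
    tUN tS2 tSM tUR
    (Pool.Agent.Helper32.KBV.tVB Pool.Agent.Helper31.KBC.tRange)
    Pool.Agent.Helper77.KBL.tIm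
    Pool.Agent.Helper31.KBC.tPay
    (Pool.Agent.Helper77.KBL.tS4 Pool.Agent.Helper31.KBC.tNS Pool.Agent.Helper31.KBC.tPayF)

end Pool.Agent.Helper23.KB
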