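import Mathlib

/-!
# Kobon triangles: the half-edge model of an arrangement (interface)

`KM n` is an arrangement of `n` (pseudo)lines with a set of marked triangular cells.
`H` is the set of half-edges: triples (line, vertex on the line, direction).
-/

namespace Pool.Agent.Helper23.KB

structure KM (n : ℕ) where
  /-- half-edges -/
  H : Type
  [hF : Fintype H]
  [hD : DecidableEq H]
  /-- vertices -/
  V : Type
  [hV : DecidableEq V]
  /-- next half-edge at the same vertex, counterclockwise -/
  nx : Equiv.Perm H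
  /-- the other half of the edge; `rv h = h` iff `h` is unbounded (a ray) -/
  rv : H → H
  /-- the vertex of a half-edge -/
  vt : H → V
  /-- multiplicity of the vertex -/
  m : H → ℕ
  /-- the line -/
  ln : H → Fin n
  /-- the position of the vertex on the line -/
  ps : H → ℤ
  /-- the direction on the line -/
  dr : H → Bool
  /-- the colour of the cell in the sector between `h` and `nx h` -/
  col : H → Bool
  /-- the sector between `h` and `nx h` belongs to a marked triangle -/
  tri : H → Bool
  rv_rv : ∀ h, rv (rv h) = h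
  vt_nx : ∀ h, vt (nx h) = vt h
  m_nx : ∀ h, m (nx h) = m h
  two_le : ∀ h, 2 ≤ m h
  per : ∀ h, nx^[2 * m h] h = h
  ln_op : ∀ h, ln (nx^[m h] h) = ln h
  dr_op : ∀ h, dr (nx^[m h] h) = !(dr h)
  ln_ne : ∀ h k, 0 < k → k < m h → ln (nx^[k] h) ≠ ln h
  ln_rv : ∀ h, ln (rv h) = ln h
  dr_rv : ∀ h, rv h ≠ h → dr (rv h) = !(dr h)
  ps_rv : ∀ h, rv h ≠ h → ps (rv h) = ps h + (if dr h then 1 else -1)
  ps_vt : ∀ h h', ln h = ln h' → vt h = vt h' → ps h = ps h'
  inj : ∀ h h', ln h = ln h' → ps h = ps h' → dr h = dr h' → h = h'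
  /-- two different lines meet in at most one vertex -/
  meet : ∀ a b a' b', vt a = vt b → vt a' = vt b' → ln a = ln a' → ln b = ln b' →
    ln a ≠ ln b → vt a = vt a'
  ray : ∀ i d, ∃! h, ln h = i ∧ dr h = d ∧ rv h = h
  /-- every line crosses all others -/
  line_sum : ∀ i d, ∑ h with (ln h = i ∧ dr h = d), ((m h : ℤ) - 1) = (n : ℤ) - 1
  tri_ray : ∀ h, tri h = true → rv h ≠ h
  tri_face : ∀ h, tri h = true → tri (nx.symm (rv h)) = true
  tri_three : ∀ h, tri h = true →
    nx.symm (rv (nx.symm (rv (nx.symm (rv h))))) = h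
  col_nx : ∀ h, col (nx h) = !(col h)
  col_rv : ∀ h, rv h ≠ h → col (nx.symm (rv h)) = col h
  /-- for even `n` the two wedges at the ends of a line have different colours -/
  wedge : Even n → ∀ h h', ln h = ln h' → h ≠ h' → rv h = h → rv h' = h' → m h = 2 → m h' = 2 →
    ∀ s s', (s = h ∨ s = nx.symm h) → (s' = h' ∨ s' = nx.symm h') →
    rv s = s → rv (nx s) = nx s → rv s' = s' → rv (nx s') = nx s' → col s ≠ col s'

attribute [instance] KM.hF KM.hD KM.hV

end Pool.Agent.Helper23.KB
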