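import Pool.Agent.Helper23.KB.Defs
import Pool.Agent.Helper30.KO.Core

/-!
# Kobon triangles: the two halves of the upper bound for even `n`
-/

namespace Pool.Agent.Helper23.KB

open Finset

/-- the combinatorial half -/
def Bound : Prop := ∀ (n : ℕ) (K : KM n), Even n → 4 ≤ n →
  3 * (univ.filter (fun h : K.H => K.tri h = true)).card ≤ n * (3 * n - 7)

/-- the geometric half: every arrangement with a set of empty triangles gives a `KM` -/
def Bridge : Prop := ∀ (n : ℕ) (a : Helper30.KO.Arr n) (T : Finset (Finset (Fin n))),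
  4 ≤ n → (∀ A ∈ T, A.card = 3) →
  (∀ A ∈ T, ∀ i ∈ A, ∀ j ∈ A, ∀ k ∈ A, i ≠ j → i ≠ k → j ≠ k → a.X i j ≠ a.X i k) →
  (∀ A ∈ T, ∀ i ∈ A, ∀ j ∈ A, ∀ k ∈ A, i ≠ j → i ≠ k → j ≠ k →
    ∀ l, l ≠ i → ¬ (a.X i j < a.X i l ∧ a.X i l < a.X i k)) →
  ∃ K : KM n, (univ.filter (fun h : K.H => K.tri h = true)).card = 3 * T.card

end Pool.Agent.Helper23.KB
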