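import Pool.Agent.Helper23.KB.Main

/-!
# Kobon triangles: capacities of S2b vertices, of single half-edges, of unused half-edges and of
unclaimed half-edges
-/

namespace Pool.Agent.Helper23.KB

open Finset

namespace KM

variable {n : ℕ} (K : KM n)

lemma nx2 {h : K.H} (hm : K.m h = 2) : K.nx (K.nx h) = K.op h := K.r2 (o := true) hm

lemma symm2 {h : K.H} (hm : K.m h = 2) : K.nx.symm (K.nx.symm h) = K.op h :=
  K.r2 (o := false) hm

lemma nx_op2 {h : K.H} (hm : K.m h = 2) : K.nx (K.op h) = K.nx.symm h := by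
  rw [← K.symm2 hm, Equiv.apply_symm_apply]

lemma symm_op2 {h : K.H} (hm : K.m h = 2) : K.nx.symm (K.op h) = K.nx h := by
  rw [← K.nx2 hm, Equiv.symm_apply_apply]

lemma op_nx2 {h : K.H} (hm : K.m h = 2) : K.op (K.nx h) = K.nx.symm h := by
  rw [K.op_nx, K.nx_op2 hm]

lemma TO_nx (h : K.H) : K.TO (K.nx h) = K.TO h := by
  by_cases hm : K.m h = 2
  · unfold TO
    rw [K.m_nx, Equiv.symm_apply_apply, K.op_nx2 hm, K.nx2 hm]
    cases h1 : K.tri h <;> cases h2 : K.tri (K.nx h) <;> cases h3 : K.tri (K.op h) <;>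
      cases h4 : K.tri (K.nx.symm h) <;> simp
  · unfold TO
    rw [K.m_nx]
    simp [hm]

lemma TW_nx (h : K.H) : K.TW (K.nx h) = K.TW h := by
  by_cases hm : K.m h = 2
  · unfold TW
    rw [K.m_nx, Equiv.symm_apply_apply, K.op_nx2 hm, K.nx2 hm]
    cases K.wg h <;> cases K.wg (K.nx h) <;> cases K.wg (K.op h) <;>
      cases K.wg (K.nx.symm h) <;> simp
  · unfold TW
    rw [K.m_nx]
    simp [hm]

lemma cost_nx (h : K.H) : K.cost (K.nx h) = K.cost h := by
  unfold cost
  rw [K.TO_nx, K.TW_nx]

lemma cost_r (o : Bool) (h : K.H) : K.cost (K.r o h) = K.cost h := by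
  cases o
  · have := K.cost_nx (K.nx.symm h)
    rw [Equiv.apply_symm_apply] at this
    exact this.symm
  · exact K.cost_nx h

lemma cost_m {h : K.H} (hc : K.cost h = true) : K.m h = 2 := by
  unfold cost TO TW at hc
  simp only [Bool.or_eq_true, Bool.and_eq_true, decide_eq_true_eq] at hc
  rcases hc with hc | hc
  · exact hc.1.1.1
  · exact hc.1

lemma TO_Dd {h : K.H} (hc : K.TO h = true) : K.Dd h = false := by
  unfold TO at hc
  unfold Dd
  simp only [Bool.and_eq_true, decide_eq_true_eq, beq_iff_eq, bne_iff_ne, ne_eq] at hc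
  obtain ⟨⟨⟨h1, h2⟩, h3⟩, h4⟩ := hc
  simp only [tr_true, tr_false]
  rw [← h3]
  cases h5 : K.tri h <;> cases h6 : K.tri (K.nx h) <;> simp_all

lemma wg_Dd {g : K.H} (hm : K.m g = 2) (hc : K.wg g = true) :
    K.Dd g = false ∧ K.Dd (K.nx g) = false ∧ K.Dd (K.op g) = false ∧
      K.Dd (K.nx.symm g) = false := by
  unfold wg at hc
  simp only [Bool.and_eq_true, decide_eq_true_eq] at hc
  obtain ⟨⟨h1, h2⟩, h3⟩ := hc
  rw [K.nx_op2 hm] at h3
  have a1 : K.tr true (K.op g) = false := K.tr_of_ray h2
  have a2 : K.tr false (K.op g) = false := K.tr_of_ray h2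
  have a3 : K.tr true (K.nx.symm g) = false := K.tr_of_ray h3
  have a4 : K.tr false (K.nx.symm g) = false := K.tr_of_ray h3
  have a5 : K.tr false g = false := a3
  have a6 : K.tr true (K.nx g) = false := by
    have : K.tr false (K.op g) = K.tri (K.nx g) := by
      change K.tri (K.nx.symm (K.op g)) = _
      rw [K.symm_op2 hm]
    change K.tri (K.nx g) = false
    rw [← this]; exact a2
  refine ⟨?_, ?_, ?_, ?_⟩
  · unfold Dd; rw [a5]; simp
  · unfold Dd; rw [a6]; simp
  · unfold Dd; rw [a1]; simp
  · unfold Dd; rw [a3]; simp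

lemma cost_Dd {h : K.H} (hc : K.cost h = true) : K.Dd h = false := by
  have hm := K.cost_m hc
  unfold cost at hc
  rw [Bool.or_eq_true] at hc
  rcases hc with hc | hc
  · exact K.TO_Dd hc
  · unfold TW at hc
    simp only [Bool.or_eq_true, Bool.and_eq_true, decide_eq_true_eq] at hc
    obtain ⟨_, ((hc | hc) | hc) | hc⟩ := hc
    · exact (K.wg_Dd hm hc).1
    · have := (K.wg_Dd (by rw [K.m_nx]; exact hm) hc).2.2.2
      rwa [Equiv.symm_apply_apply] at this
    · have := (K.wg_Dd (by rw [K.m_op]; exact hm) hc).2.2.1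
      rwa [op_op] at this
    · have := (K.wg_Dd (by rw [K.m_symm]; exact hm) hc).2.1
      rwa [Equiv.apply_symm_apply] at this

lemma Dd_cost {h : K.H} (hd : K.Dd h = true) : K.cost h = false := by
  cases hc : K.cost h
  · rfl
  · rw [K.cost_Dd hc] at hd; exact absurd hd (by simp)

lemma e2_m {g : K.H} (he : K.e2 g = true) : K.m g = 2 := by
  unfold e2 at he
  simp only [Bool.and_eq_true, decide_eq_true_eq] at he
  exact he.1.1

lemma e2_Dd {g : K.H} (he : K.e2 g = true) : K.Dd g = true := by
  unfold e2 at he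
  simp only [Bool.and_eq_true, decide_eq_true_eq] at he
  exact he.1.2

lemma e2_ray {g : K.H} (he : K.e2 g = true) : K.rv (K.op g) = K.op g := by
  unfold e2 at he
  simp only [Bool.and_eq_true, decide_eq_true_eq] at he
  exact he.2

lemma e2_tr {g : K.H} (he : K.e2 g = true) (o : Bool) : K.tr o (K.r o g) = false := by
  have h1 := K.tr_r o (K.r o g)
  rw [K.r2 (K.e2_m he)] at h1
  rw [← h1]
  exact K.tr_of_ray (K.e2_ray he)

lemma e2_tr' {g : K.H} (he : K.e2 g = true) (o : Bool) : K.tr (!o) (K.r o g) = true :=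
  K.tr_r_self (K.Dd_tr (K.e2_Dd he))

lemma e2_Sg {g : K.H} (he : K.e2 g = true) (o : Bool) : K.Sg (K.r o g) = true := by
  rw [K.Sg_iff o, K.e2_tr he, K.e2_tr' he]
  rfl

/-- the two candidates for an E2 centre next to a half-edge exclude each other -/
lemma e2_unique {h : K.H} (h1 : K.e2 (K.r true h) = true) (h2 : K.e2 (K.r false h) = true) :
    False := by
  have hm := K.e2_m h1
  rw [m_r] at hm
  have h3 : K.op (K.r true h) = K.r false h := (K.r2' (o := true) hm).symm
  have h4 := K.e2_ray h1
  rw [h3] at h4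
  exact K.Dd_ray (K.e2_Dd h2) h4

/-- at the apex: the half-edge to a neighbour of type O or W is single -/
lemma apex_Sg {g : K.H} {o : Bool} (hd : K.Dd g = true) (hc : K.cw o g = true) :
    K.tr o (K.r (!o) (K.rv g)) = true ∧ K.Sg (K.r (!o) (K.rv g)) = true := by
  have ht : K.tr o g = true := K.Dd_tr hd
  have h1 : K.tr (!o) (K.rv g) = true := K.tr_rv ht
  have h2 : K.tr o (K.r (!o) (K.rv g)) = true := by
    have := K.tr_r_self (o := !o) h1
    rwa [Bool.not_not] at this
  refine ⟨h2, ?_⟩
  rcases K.Sg_or_Dd h2 with h3 | h3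
  · exact h3
  · exfalso
    rw [← K.Dd_rv, K.third ht] at h3
    have h4 := K.Dd_cost h3
    rw [K.cost_r] at h4
    unfold cw at hc
    rw [h4] at hc
    exact absurd hc (by simp)

lemma Sg_tr {h : K.H} {o : Bool} (hs : K.Sg h = true) (ht : K.tr o h = true) :
    K.tr (!o) h = false := by
  have := (K.Sg_iff o h).mp hs
  rw [ht] at this
  cases h1 : K.tr (!o) h
  · rfl
  · rw [h1] at this; exact absurd this (by simp)

lemma Sg_tri {h : K.H} {o : Bool} (hs : K.Sg h = true) (ht : K.tr (!o) h = true) :
    (!(K.tri h)) = o := by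
  have := K.Sg_tr hs ht
  rw [Bool.not_not] at this
  cases o
  · have h1 : K.tri h = true := ht
    rw [h1]; rfl
  · have h1 : K.tri h = false := this
    rw [h1]; rfl

/-- predecessor of a reached state -/
lemma rc_prev {h : K.H} {o : Bool} (hr : K.Rc (h, o)) :
    K.start (h, o) ∨
      (K.Rc (K.rv (K.r (!o) h), !o) ∧ K.cont (K.rv (K.r (!o) h), !o)) := by
  obtain ⟨s, k, hs, hk⟩ := hr
  cases k with
  | zero =>
    left
    rw [show (h, o) = s from hk]; exact hs
  | succ k =>
    right
    obtain ⟨u, hu, hc, he⟩ := hk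
    unfold nextS at he
    have h1 : h = K.r (!u.2) (K.rv u.1) := congrArg Prod.fst he
    have h2 : o = !u.2 := congrArg Prod.snd he
    have h3 : K.r (!o) h = K.rv u.1 := by
      rw [h2, Bool.not_not]
      rw [h1, K.r_r']
    have h4 : (K.rv (K.r (!o) h), !o) = u := by
      rw [h3, K.rv_rv, h2, Bool.not_not]
    rw [h4]
    exact ⟨⟨s, k, hs, hu⟩, hc⟩

/-- reached states are valid -/
lemma rc_tr {t : K.St} (hr : K.Rc t) : K.tr (!t.2) t.1 = true := by
  obtain ⟨h, o⟩ := t
  rcases K.rc_prev hr with hs | ⟨_, hc, _⟩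
  · exact hs.2
  · simp only at hc
    have h1 := K.tr_rv hc
    rw [K.rv_rv, Bool.not_not] at h1
    have h2 := K.tr_r' o h
    rw [h1] at h2
    exact h2.symm

lemma bth_e2 {g : K.H} (h : K.bth g = true) : K.e2 g = true := by
  unfold bth at h
  simp only [Bool.and_eq_true] at h
  exact h.1.1

lemma bth_cw {g : K.H} (h : K.bth g = true) (o : Bool) : K.cw o g = true := by
  unfold bth at h
  simp only [Bool.and_eq_true] at h
  cases o
  · exact h.2
  · exact h.1.2

lemma t4_bth {g : K.H} (h : K.t4 g = true) : K.bth g = true := by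
  unfold t4 at h
  simp only [Bool.and_eq_true] at h
  exact h.1.1.1.1

lemma t4_m {g : K.H} (h : K.t4 g = true) : K.m (K.rv g) = 3 := by
  unfold t4 at h
  simp only [Bool.and_eq_true, decide_eq_true_eq] at h
  exact h.1.1.1.2

lemma t4_Sg {g : K.H} (h : K.t4 g = true) (o : Bool) : K.Sg (K.yy o g) = true := by
  unfold t4 at h
  simp only [Bool.and_eq_true] at h
  cases o
  · exact h.1.2
  · exact h.1.1.2

lemma t4_Dd {g : K.H} (h : K.t4 g = true) : K.Dd (K.op (K.rv g)) = true := by
  unfold t4 at h
  simp only [Bool.and_eq_true] at h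
  exact h.2

/-- two E2 centres with both neighbours of type O or W whose apex is the same triple vertex are
not at distance two -/
lemma bth_unique {h : K.H} (hm : K.m h = 3) (h1 : K.bth (K.rv (K.r true (K.r true h))) = true)
    (h2 : K.bth (K.rv (K.r false (K.r false h))) = true) : False := by
  -- the half-edge `op h` is between them
  have a1 := K.apex_Sg (o := false) (K.e2_Dd (K.bth_e2 h1)) (K.bth_cw h1 false)
  have a2 := K.apex_Sg (o := true) (K.e2_Dd (K.bth_e2 h2)) (K.bth_cw h2 true)
  rw [K.rv_rv] at a1 a2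
  have e1 : K.r (!false) (K.r true (K.r true h)) = K.op h := K.r3 (o := true) hm
  have e2 : K.r (!true) (K.r false (K.r false h)) = K.op h := K.r3 (o := false) hm
  rw [e1] at a1
  rw [e2] at a2
  have := K.Sg_tr a1.2 a1.1
  rw [Bool.not_false] at this
  rw [this] at a2
  exact absurd a2.1 (by simp)

lemma qq_eq {h : K.H} : K.qq (K.rv (K.op (K.rv h))) = h := by
  unfold qq
  rw [K.rv_rv, K.op_op, K.rv_rv]

lemma yy_eq (o : Bool) (h : K.H) : K.yy o (K.rv (K.r o (K.r o h))) = h := by
  unfold yy
  rw [K.rv_rv, K.r_r, K.r_r]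

/-- at a triple apex: `X` follows `Y_o` -/
lemma op_yy {g : K.H} (hm : K.m (K.rv g) = 3) (o : Bool) :
    K.op (K.rv g) = K.r (!o) (K.yy o g) := by
  unfold yy
  rw [K.r3 hm]

lemma yy_not {g : K.H} (hm : K.m (K.rv g) = 3) (o : Bool) :
    K.yy (!o) g = K.r (!o) (K.op (K.rv g)) := by
  have h1 := K.op_yy hm (!o)
  rw [Bool.not_not] at h1
  rw [h1, K.r_r]

/-- the triangle at `Y_o` is on the side of `X` -/
lemma t4_tr {g : K.H} (h : K.t4 g = true) (o : Bool) : K.tr (!o) (K.yy o g) = true := by
  have h1 := K.t4_Dd h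
  rw [K.op_yy (K.t4_m h) o] at h1
  have h2 := K.Dd_tr (o := o) h1
  have h3 := K.tr_r (!o) (K.yy o g)
  rw [Bool.not_not] at h3
  rw [← h3]; exact h2

lemma ims_vf {h : K.H} (hi : K.ims h = true) : K.vf h = true := by
  unfold ims at hi
  simp only [Bool.and_eq_true] at hi
  exact hi.1.1

/-- `Y_o` is not claimed if `X` has multiplicity at least 4 -/
lemma un_b4 {g : K.H} {o : Bool} (h : K.b4 o g = true) : K.un (K.yy o g) = true := by
  unfold b4 at h
  simp only [Bool.and_eq_true, decide_eq_true_eq] at h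
  have hS := K.t4_Sg h.1 o
  unfold un
  rw [hS, K.Sg_tri hS (K.t4_tr h.1 o)]
  cases hr : K.rc (K.yy o g, o)
  · rfl
  · exfalso
    rw [rc_iff] at hr
    rcases K.rc_prev hr with hs | ⟨_, hc⟩
    · have := hs.1
      simp only at this
      unfold yy at this
      rw [m_r, m_r, K.t4_m h.1] at this
      omega
    · have := hc.2
      simp only at this
      rw [← K.op_yy (K.t4_m h.1) o] at this
      have h4 := h.2
      unfold qq at h4
      omega

/-- `Y_o` is not claimed if `X` is triple and `Y_{!o}` is of type O or W -/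
lemma un_b5 {g : K.H} {o : Bool} (h : K.b5 o g = true) : K.un (K.yy o g) = true := by
  unfold b5 at h
  simp only [Bool.and_eq_true, decide_eq_true_eq] at h
  obtain ⟨⟨ht, hq⟩, hy⟩ := h
  have hm := K.t4_m ht
  have hS := K.t4_Sg ht o
  unfold un
  rw [hS, K.Sg_tri hS (K.t4_tr ht o)]
  cases hr : K.rc (K.yy o g, o)
  · rfl
  · exfalso
    rw [rc_iff] at hr
    rcases K.rc_prev hr with hs | ⟨hr2, hc⟩
    · have := hs.1
      simp only at this
      unfold yy at this
      rw [m_r, m_r, hm] at this
      omega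
    · rw [← K.op_yy hm o] at hr2
      have hq' : K.m (K.rv (K.op (K.rv g))) = 3 := hq
      rcases K.rc_prev hr2 with hs | ⟨hr3, hc3⟩
      · have := hs.1
        simp only at this
        omega
      · rw [Bool.not_not] at hr3 hc3
        -- the previous half-edge is double and starts at `Y_{!o}`
        have h1 : K.Dd (K.rv (K.r o (K.rv (K.op (K.rv g))))) = true := by
          rw [K.Dd_iff o]
          exact ⟨hc3.1, K.rc_tr hr3⟩
        have h2 : K.tr (!o) (K.op (K.rv g)) = true := K.Dd_tr (K.t4_Dd ht)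
        have h3 := K.third h2
        rw [Bool.not_not] at h3
        rw [h3] at h1
        have h4 := K.Dd_cost h1
        rw [K.cost_r, ← K.yy_not hm o] at h4
        rw [h4] at hy
        exact absurd hy (by simp)

/-- the half-edge from a multiple neighbour to an E2 vertex next to a full vertex is unclaimed -/
lemma un_v3 {k : K.H} {o : Bool} (h : K.v3 o k = true) :
    K.un (K.rv (K.r o k)) = true ∧ K.tr o (K.rv (K.r o k)) = true := by
  unfold v3 at h
  simp only [Bool.and_eq_true, Bool.not_eq_true', decide_eq_false_iff_not] at h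
  obtain ⟨⟨hi, he⟩, hm⟩ := h
  have hS : K.Sg (K.rv (K.r o k)) = true := by rw [K.Sg_rv]; exact K.e2_Sg he o
  have ht : K.tr o (K.rv (K.r o k)) = true := by
    have := K.tr_rv (K.e2_tr' he o)
    rwa [Bool.not_not] at this
  refine ⟨?_, ht⟩
  unfold un
  have ht' : K.tr (!(!o)) (K.rv (K.r o k)) = true := by rw [Bool.not_not]; exact ht
  rw [hS, K.Sg_tri hS ht']
  cases hr : K.rc (K.rv (K.r o k), !o)
  · rfl
  · exfalso
    rw [rc_iff] at hr
    rcases K.rc_prev hr with hs | ⟨_, hc⟩
    · exact hm hs.1
    · have h1 := hc.2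
      simp only [Bool.not_not] at h1
      -- `rv (r o (rv (r o k)))` is at the vertex `V`
      have h2 := K.third (K.Dd_tr (o := o) (K.e2_Dd he))
      rw [← h2, K.rv_rv, m_r] at h1
      have h4 := K.vf_m (K.ims_vf hi)
      omega

end KM

open KM

theorem tS2 : StS2 := by
  intro n K h
  cases h3 : K.b3 (K.rv (K.op (K.rv h)))
  · cases h2 : K.v2 h
    · simp
    · unfold KM.v2 at h2
      simp only [Bool.and_eq_true] at h2
      simp [h2.2]
  · unfold KM.b3 at h3
    rw [K.qq_eq] at h3
    simp only [Bool.and_eq_true] at h3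
    have hm := K.t4_m h3.1
    rw [K.rv_rv, m_op] at hm
    cases h2 : K.v2 h
    · simp [h3.2]
    · unfold KM.v2 at h2
      simp only [Bool.and_eq_true] at h2
      have := K.vf_m (K.ims_vf h2.1)
      omega

theorem tSM : StSM := by
  intro n K h
  have key : ∀ o, K.b1 o (K.rv (K.r o h)) = true → K.sm h = true ∧ K.tr o h = true := by
    intro o hb
    unfold KM.b1 at hb
    simp only [Bool.and_eq_true, decide_eq_true_eq] at hb
    obtain ⟨⟨he, hc⟩, hm⟩ := hb
    have h1 := K.apex_Sg (K.e2_Dd he) hc
    rw [K.rv_rv, K.r_r] at h1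
    rw [K.rv_rv, m_r] at hm
    refine ⟨?_, h1.1⟩
    unfold KM.sm
    simp [hm, h1.2]
  cases h1 : K.b1 true (K.rv (K.r true h))
  · cases h2 : K.b1 false (K.rv (K.r false h))
    · simp
    · simp [(key false h2).1]
  · cases h2 : K.b1 false (K.rv (K.r false h))
    · simp [(key true h1).1]
    · exfalso
      have a := (key true h1)
      have b := (key false h2)
      have c := a.1
      unfold KM.sm at c
      simp only [Bool.and_eq_true] at c
      have := K.Sg_tr c.2 a.2
      rw [Bool.not_true, b.2] at this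
      exact absurd this (by simp)

theorem tUR : StUR := by
  intro n K h
  have key : ∀ o, K.b2 o (K.rv (K.r o (K.r o h))) = true →
      K.ur h = true ∧ K.m h = 3 ∧ K.bth (K.rv (K.r o (K.r o h))) = true := by
    intro o hb
    unfold KM.b2 at hb
    simp only [Bool.and_eq_true, decide_eq_true_eq] at hb
    obtain ⟨⟨hb, hm⟩, hu⟩ := hb
    rw [K.yy_eq] at hu
    rw [K.rv_rv, m_r, m_r] at hm
    exact ⟨hu, hm, hb⟩
  cases h1 : K.b2 true (K.rv (K.r true (K.r true h)))
  · cases h2 : K.b2 false (K.rv (K.r false (K.r false h)))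
    · simp
    · simp [(key false h2).1]
  · cases h2 : K.b2 false (K.rv (K.r false (K.r false h)))
    · simp [(key true h1).1]
    · exact (K.bth_unique (key true h1).2.1 (key true h1).2.2 (key false h2).2.2).elim

theorem tUN : StUN := by
  intro n K h _
  -- at most one of the two E2 centres asks
  have key : ∀ o, K.t4 (K.rv (K.r o (K.r o h))) = true → K.m h = 3 := by
    intro o ht
    have := K.t4_m ht
    rwa [K.rv_rv, m_r, m_r] at this
  have ex : ¬ (K.t4 (K.rv (K.r true (K.r true h))) = true ∧
      K.t4 (K.rv (K.r false (K.r false h))) = true) := by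
    rintro ⟨a, b⟩
    exact K.bth_unique (key true a) (K.t4_bth a) (K.t4_bth b)
  have b4t : ∀ o g, K.b4 o g = true → K.t4 g = true := by
    intro o g hb; unfold KM.b4 at hb; simp only [Bool.and_eq_true] at hb; exact hb.1
  have b5t : ∀ o g, K.b5 o g = true → K.t4 g = true := by
    intro o g hb; unfold KM.b5 at hb; simp only [Bool.and_eq_true] at hb; exact hb.1.1
  have b45 : ∀ o g, ¬ (K.b4 o g = true ∧ K.b5 o g = true) := by
    intro o g ⟨h4, h5⟩
    unfold KM.b4 at h4; unfold KM.b5 at h5
    simp only [Bool.and_eq_true, decide_eq_true_eq] at h4 h5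
    omega
  -- the full vertex
  have v3u : ∀ o, K.v3 o (K.r (!o) (K.rv h)) = true → K.un h = true ∧ K.tr o h = true := by
    intro o hv
    have := K.un_v3 hv
    rwa [K.r_r', K.rv_rv] at this
  have v3x : ¬ (K.v3 true (K.r false (K.rv h)) = true ∧ K.v3 false (K.r true (K.rv h)) = true) := by
    rintro ⟨a, b⟩
    unfold KM.v3 at a b
    simp only [Bool.and_eq_true] at a b
    exact K.e2_unique b.1.2 a.1.2
  have b4u : ∀ o, K.b4 o (K.rv (K.r o (K.r o h))) = true → K.un h = true := by
    intro o hb
    have := K.un_b4 hb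
    rwa [K.yy_eq] at this
  have b5u : ∀ o, K.b5 o (K.rv (K.r o (K.r o h))) = true → K.un h = true := by
    intro o hb
    have := K.un_b5 hb
    rwa [K.yy_eq] at this
  have b5v : ∀ o o', K.b5 o (K.rv (K.r o (K.r o h))) = true →
      K.v3 o' (K.r (!o') (K.rv h)) = true → False := by
    intro o o' hb hv
    have h1 := K.t4_tr (b5t _ _ hb) o
    rw [K.yy_eq] at h1
    have h2 := (v3u o' hv).2
    have hS : K.Sg h = true := by
      have := (v3u o' hv).1
      unfold KM.un at this
      simp only [Bool.and_eq_true] at this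
      exact this.1
    have h3 : o' = !o := by
      have := K.Sg_tr hS h1
      rw [Bool.not_not] at this
      cases o <;> cases o' <;> simp_all
    subst h3
    have h4 := K.third h2
    rw [Bool.not_not] at h4
    have hv' : K.vf (K.rv (K.r o (K.rv h))) = true := by
      unfold KM.v3 at hv
      simp only [Bool.and_eq_true, Bool.not_not] at hv
      exact K.ims_vf hv.1.1
    rw [h4] at hv'
    have h5 := K.vf_m hv'
    rw [m_r] at h5
    have hq : K.m (K.qq (K.rv (K.r o (K.r o h)))) = 3 := by
      unfold KM.b5 at hb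
      simp only [Bool.and_eq_true, decide_eq_true_eq] at hb
      exact hb.1.2
    unfold KM.qq at hq
    rw [K.op_yy (K.t4_m (b5t _ _ hb)) o, K.yy_eq] at hq
    omega
  unfold KM.unE KM.unV
  have c1 : ∀ b : Bool, b.toNat ≤ 1 := fun b => by cases b <;> simp
  by_cases hu : K.un h = true
  · rw [hu]
    have t1 : ∀ o : Bool, K.b5 o (K.rv (K.r o (K.r o h))) = true →
        K.v3 true (K.r false (K.rv h)) = false ∧ K.v3 false (K.r true (K.rv h)) = false := by
      intro o hb
      constructor
      · cases hv : K.v3 true (K.r false (K.rv h))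
        · rfl
        · exact (b5v o true hb hv).elim
      · cases hv : K.v3 false (K.r true (K.rv h))
        · rfl
        · exact (b5v o false hb hv).elim
    have f : ∀ {a b : Bool}, ¬ (a = true ∧ b = true) → a.toNat + b.toNat ≤ 1 := by
      intro a b; cases a <;> cases b <;> simp
    have x1 := f v3x
    have x2 : ∀ {a b c d : Bool}, ¬ ((a = true ∨ b = true) ∧ (c = true ∨ d = true)) →
        ¬ (a = true ∧ b = true) → ¬ (c = true ∧ d = true) →
        a.toNat + c.toNat + 2 * (b.toNat + d.toNat) ≤ 2 ∧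
        (b = false → d = false → a.toNat + c.toNat + 2 * (b.toNat + d.toNat) ≤ 1) := by
      intro a b c d; cases a <;> cases b <;> cases c <;> cases d <;> simp
    have x3 := x2 (a := K.b4 true (K.rv (K.r true (K.r true h))))
      (b := K.b5 true (K.rv (K.r true (K.r true h))))
      (c := K.b4 false (K.rv (K.r false (K.r false h))))
      (d := K.b5 false (K.rv (K.r false (K.r false h)))) (by
        rintro ⟨h1, h2⟩
        apply ex
        constructor
        · rcases h1 with h1 | h1
          · exact b4t _ _ h1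
          · exact b5t _ _ h1
        · rcases h2 with h2 | h2
          · exact b4t _ _ h2
          · exact b5t _ _ h2) (b45 _ _) (b45 _ _)
    cases h5 : K.b5 true (K.rv (K.r true (K.r true h)))
    · cases h5' : K.b5 false (K.rv (K.r false (K.r false h)))
      · have := x3.2 h5 h5'
        rw [h5, h5'] at this
        simp only [Bool.toNat_true, Bool.toNat_false] at this ⊢
        omega
      · obtain ⟨t2, t3⟩ := t1 false h5'
        rw [t2, t3]
        have := x3.1
        rw [h5, h5'] at this
        simp only [Bool.toNat_true, Bool.toNat_false] at this ⊢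
        omega
    · obtain ⟨t2, t3⟩ := t1 true h5
      rw [t2, t3]
      have := x3.1
      rw [h5] at this
      simp only [Bool.toNat_true, Bool.toNat_false] at this ⊢
      omega
  · have z : ∀ b : Bool, (b = true → K.un h = true) → b.toNat = 0 := by
      intro b hb
      cases b
      · rfl
      · exact absurd (hb rfl) hu
    rw [z _ (b4u true), z _ (b4u false), z _ (b5u true), z _ (b5u false)]
    have z1 := z (K.v3 true (K.r false (K.rv h))) (fun hb => (v3u true hb).1)
    have z2 := z (K.v3 false (K.r true (K.rv h))) (fun hb => (v3u false hb).1)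
    rw [z1, z2]
    simp

end Pool.Agent.Helper23.KB
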