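import Pool.Agent.Helper23.KB.St
import Pool.Agent.Helper23.KB.Goals

/-!
# Kobon triangles: the global sum
-/

namespace Pool.Agent.Helper23.KB

open Finset

namespace KM

variable {n : ℕ} (K : KM n)

lemma vf_m {h : K.H} (hv : K.vf h = true) : K.m h = 4 := by
  unfold vf at hv
  simp only [Bool.and_eq_true, decide_eq_true_eq] at hv
  exact hv.1

lemma vf_nx {h : K.H} (hv : K.vf h = true) : K.vf (K.nx h) = true := by
  have hm := K.vf_m hv
  unfold vf at hv ⊢
  simp only [Bool.and_eq_true, decide_eq_true_eq] at hv ⊢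
  refine ⟨by rw [K.m_nx]; exact hv.1, ?_⟩
  intro k
  have hp := K.per h
  rw [hm] at hp
  by_cases hk : (k : ℕ) = 7
  · rw [hk, ← Function.iterate_succ_apply]
    rw [show Nat.succ 7 = 2 * 4 from rfl, hp]
    exact hv.2 ⟨0, by norm_num⟩
  · rw [← Function.iterate_succ_apply]
    have h8 : (k : ℕ) < 8 := k.2
    exact hv.2 ⟨(k : ℕ) + 1, by omega⟩

lemma vf_iter {h : K.H} (hv : K.vf h = true) (k : ℕ) : K.vf (K.nx^[k] h) = true := by
  induction k generalizing h with
  | zero => exact hv
  | succ k ih => rw [Function.iterate_succ_apply]; exact ih (K.vf_nx hv)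

lemma vf_symm {h : K.H} (hv : K.vf h = true) : K.vf (K.nx.symm h) = true := by
  have h7 := K.vf_iter hv 7
  have hp := K.per h
  rw [K.vf_m hv] at hp
  have : K.nx^[7] h = K.nx.symm h := by
    apply K.nx.injective
    rw [Equiv.apply_symm_apply]
    exact (Function.iterate_succ_apply' K.nx 7 h).symm.trans hp
  rwa [this] at h7

lemma vf_r {h : K.H} (o : Bool) : K.vf (K.r o h) = K.vf h := by
  apply Bool.eq_iff_iff.mpr
  constructor
  · intro hv
    cases o
    · have := K.vf_nx hv
      simpa [r] using this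
    · have := K.vf_symm hv
      simpa [r] using this
  · intro hv
    cases o
    · exact K.vf_symm hv
    · exact K.vf_nx hv

lemma vf_tr {h : K.H} (hv : K.vf h = true) (o : Bool) : K.tr o h = true := by
  have key : ∀ g : K.H, K.vf g = true → K.tri g = true := by
    intro g hg
    unfold vf at hg
    simp only [Bool.and_eq_true, decide_eq_true_eq] at hg
    exact hg.2 ⟨0, by norm_num⟩
  cases o
  · exact key _ (K.vf_symm hv)
  · exact key _ hv

lemma vf_Dd {h : K.H} (hv : K.vf h = true) : K.Dd h = true := by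
  rw [K.Dd_iff true]
  exact ⟨K.vf_tr hv _, K.vf_tr hv _⟩

lemma sum_r (o : Bool) (f : K.H → ℕ) : ∑ h, f (K.r o h) = ∑ h, f h := by
  have := Equiv.sum_comp (K.rE o) f
  simpa using this

lemma sum_rv (f : K.H → ℕ) : ∑ h, f (K.rv h) = ∑ h, f h := by
  have := Equiv.sum_comp K.rvE f
  simpa using this

lemma sum_op (f : K.H → ℕ) : ∑ h, f (K.op h) = ∑ h, f h := by
  have := Equiv.sum_comp K.opE f
  simpa using this

lemma card_rays : ∑ h, (decide (K.rv h = h)).toNat = 2 * n := by
  classical
  have h1 : ∑ h, (decide (K.rv h = h)).toNat =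
      ∑ p : Fin n × Bool, ∑ h with (K.ln h = p.1 ∧ K.dr h = p.2), (decide (K.rv h = h)).toNat := by
    rw [← Finset.sum_fiberwise_of_maps_to (s := univ) (t := (univ : Finset (Fin n × Bool)))
      (g := fun h => (K.ln h, K.dr h)) (fun _ _ => mem_univ _)]
    apply Finset.sum_congr rfl
    intro p _
    apply Finset.sum_congr _ (fun _ _ => rfl)
    ext h
    simp [Prod.ext_iff]
  rw [h1]
  have h2 : ∀ p : Fin n × Bool,
      ∑ h with (K.ln h = p.1 ∧ K.dr h = p.2), (decide (K.rv h = h)).toNat = 1 := by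
    intro p
    obtain ⟨g, ⟨g1, g2, g3⟩, hu⟩ := K.ray p.1 p.2
    rw [Finset.sum_eq_single g]
    · simp [g3]
    · intro b hb hne
      simp only [mem_filter, mem_univ, true_and] at hb
      have : K.rv b ≠ b := fun h => hne (hu b ⟨hb.1, hb.2, h⟩)
      simp [this]
    · intro hn
      simp [g1, g2] at hn
  rw [Finset.sum_congr rfl (fun p _ => h2 p)]
  simp [Fintype.card_prod, mul_comm]

lemma sum_m : ∑ h, ((K.m h : ℤ) - 1) = 2 * n * (n - 1) := by
  classical
  have h1 : ∑ h, ((K.m h : ℤ) - 1) =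
      ∑ p : Fin n × Bool, ∑ h with (K.ln h = p.1 ∧ K.dr h = p.2), ((K.m h : ℤ) - 1) := by
    rw [← Finset.sum_fiberwise_of_maps_to (s := univ) (t := (univ : Finset (Fin n × Bool)))
      (g := fun h => (K.ln h, K.dr h)) (fun _ _ => mem_univ _)]
    apply Finset.sum_congr rfl
    intro p _
    apply Finset.sum_congr _ (fun _ _ => rfl)
    ext h
    simp [Prod.ext_iff]
  rw [h1, Finset.sum_congr rfl (fun p _ => K.line_sum p.1 p.2)]
  simp [Fintype.card_prod]
  ring

lemma card_tri : ∑ h, (K.tri h).toNat = (univ.filter (fun h : K.H => K.tri h = true)).card := by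
  classical
  rw [Finset.card_filter]
  apply Finset.sum_congr rfl
  intro h _
  cases K.tri h <;> simp

lemma sum_wt : ∑ h, K.wt h =
    6 * n * (n - 1) - 6 * ((univ.filter (fun h : K.H => K.tri h = true)).card : ℤ) := by
  have h1 : ∑ h, K.wt h = 3 * ∑ h, ((K.m h : ℤ) - 1) - 3 * ∑ h, ((K.tri h).toNat : ℤ) -
      3 * ∑ h, ((K.tri (K.nx.symm h)).toNat : ℤ) := by
    unfold wt
    rw [Finset.sum_sub_distrib, Finset.sum_sub_distrib, Finset.mul_sum, Finset.mul_sum,
      Finset.mul_sum]
  have h2 : ∑ h, ((K.tri (K.nx.symm h)).toNat : ℤ) = ∑ h, ((K.tri h).toNat : ℤ) :=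
    Equiv.sum_comp K.nx.symm (fun h => ((K.tri h).toNat : ℤ))
  have h3 : ∑ h, ((K.tri h).toNat : ℤ) =
      ((univ.filter (fun h : K.H => K.tri h = true)).card : ℤ) := by
    rw [← K.card_tri]
    push_cast
    rfl
  rw [h1, h2, h3, K.sum_m]
  ring

lemma sum_gg : ∑ h, K.gg h = ∑ h, K.wt h - 8 * n - ((∑ h, (K.PE h).toNat : ℕ) : ℤ)
    + ((∑ h, (K.wr h).toNat : ℕ) : ℤ) - 2 * ((∑ h, (K.Sg h).toNat : ℕ) : ℤ)
    - 2 * ((∑ h, K.nsl h : ℕ) : ℤ)
    + 2 * ((∑ h, ((K.stb (h, true)).toNat + (K.stb (h, false)).toNat) : ℕ) : ℤ) := by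
  have h8 : (8 * n : ℤ) = 4 * ((∑ h, (decide (K.rv h = h)).toNat : ℕ) : ℤ) := by
    rw [K.card_rays]; push_cast; ring
  rw [h8]
  push_cast
  simp only [Finset.mul_sum, ← Finset.sum_sub_distrib, ← Finset.sum_add_distrib]
  apply Finset.sum_congr rfl
  intro h _
  unfold gg
  ring

/-- the unclaimed slots at full vertices -/
lemma sum_slots : ∑ h, ((K.vf h && !(K.clm true h)).toNat + (K.vf h && !(K.clm false h)).toNat) ≤
    ∑ h, ((K.slt (h, true) && !(K.rc (h, true))).toNat +
        (K.slt (h, false) && !(K.rc (h, false))).toNat) := by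
  have key : ∀ o, ∑ h, (K.vf h && !(K.clm o h)).toNat ≤
      ∑ h, (K.slt (h, o) && !(K.rc (h, o))).toNat := by
    intro o
    rw [← K.sum_r o (fun h => (K.slt (h, o) && !(K.rc (h, o))).toNat)]
    rw [← K.sum_r o (fun h => (K.slt (K.r o h, o) && !(K.rc (K.r o h, o))).toNat)]
    apply Finset.sum_le_sum
    intro h _
    by_cases hv : K.vf h = true
    · have h1 : K.slt (K.r o (K.r o h), o) = true := by
        unfold slt
        simp only [Bool.and_eq_true, decide_eq_true_eq, m_r]
        refine ⟨⟨by rw [K.vf_m hv], ?_⟩, ?_⟩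
        · apply K.vf_Dd; rw [vf_r, vf_r]; exact hv
        · rw [K.r_r]; apply K.vf_Dd; rw [vf_r]; exact hv
      rw [h1, hv]
      exact le_of_eq rfl
    · simp [hv]
  rw [Finset.sum_add_distrib, Finset.sum_add_distrib]
  exact add_le_add (key true) (key false)

end KM

open KM

/-- the final sum -/
theorem bound_of (hC : StCount) (hL : StLine) (hG : StG) (hE2 : StE2) (hPE : StPE) (hUN : StUN)
    (hS2 : StS2) (hSM : StSM) (hUR : StUR) (hVB : StVB) (hIm : StIm) (hPay : StPay)
    (hS4 : StS4) : Bound := by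
  intro n K hev h4
  have c := hC n K
  have l := hL n K hev h4
  have g := hG n K h4
  have e2 := Finset.sum_le_sum (fun g (_ : g ∈ (univ : Finset K.H)) => hE2 n K g hev h4)
  have pe := Finset.sum_le_sum (fun g (_ : g ∈ (univ : Finset K.H)) => hPE n K g h4)
  have uN := Finset.sum_le_sum (fun g (_ : g ∈ (univ : Finset K.H)) => hUN n K g h4)
  have s2 := Finset.sum_le_sum (fun g (_ : g ∈ (univ : Finset K.H)) => hS2 n K g)
  have sM := Finset.sum_le_sum (fun g (_ : g ∈ (univ : Finset K.H)) => hSM n K g)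
  have uR := Finset.sum_le_sum (fun g (_ : g ∈ (univ : Finset K.H)) => hUR n K g)
  have vb := hVB n K
  have im := Finset.sum_le_sum (fun g (_ : g ∈ (univ : Finset K.H)) => hIm n K g)
  have py := hPay n K
  have s4 := hS4 n K
  have sl := K.sum_slots
  have gs := K.sum_gg
  have wt := K.sum_wt
  simp only [Finset.sum_add_distrib, ← Finset.mul_sum, askE, askV, unE, unV] at *
  -- reindexing
  have r1 := K.sum_r false (fun h => (K.a1 true h).toNat)
  have r1' := K.sum_r true (fun h => (K.a1 false h).toNat)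
  have r2 : ∑ h, (K.a2 true (K.r false (K.rv h))).toNat = ∑ h, (K.a2 true h).toNat := by
    rw [K.sum_rv (fun h => (K.a2 true (K.r false h)).toNat),
      K.sum_r false (fun h => (K.a2 true h).toNat)]
  have r2' : ∑ h, (K.a2 false (K.r true (K.rv h))).toNat = ∑ h, (K.a2 false h).toNat := by
    rw [K.sum_rv (fun h => (K.a2 false (K.r true h)).toNat),
      K.sum_r true (fun h => (K.a2 false h).toNat)]
  have rr : ∀ (o : Bool) (f : K.H → ℕ), ∑ h, f (K.rv (K.r o (K.r o h))) = ∑ h, f h := by
    intro o f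
    rw [K.sum_r o (fun h => f (K.rv (K.r o h))), K.sum_r o (fun h => f (K.rv h)), K.sum_rv f]
  have rr' : ∀ (o : Bool) (f : K.H → ℕ),
      ∑ h, f (K.rv (K.r o (K.r o (K.rv h)))) = ∑ h, f h := by
    intro o f
    rw [K.sum_rv (fun h => f (K.rv (K.r o (K.r o h)))), rr o f]
  have r3 := rr true (fun h => (K.a3 true h).toNat)
  have r3' := rr false (fun h => (K.a3 false h).toNat)
  have r4 := rr' true (fun h => (K.a4 true h).toNat)
  have r4' := rr' false (fun h => (K.a4 false h).toNat)
  have q2 := rr true (fun h => (K.b2 true h).toNat)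
  have q2' := rr false (fun h => (K.b2 false h).toNat)
  have q4 := rr true (fun h => (K.b4 true h).toNat)
  have q4' := rr false (fun h => (K.b4 false h).toNat)
  have q5 := rr true (fun h => (K.b5 true h).toNat)
  have q5' := rr false (fun h => (K.b5 false h).toNat)
  have q1 : ∑ h, (K.b1 true (K.rv (K.r true h))).toNat = ∑ h, (K.b1 true h).toNat := by
    rw [K.sum_r true (fun h => (K.b1 true (K.rv h)).toNat),
      K.sum_rv (fun h => (K.b1 true h).toNat)]
  have q1' : ∑ h, (K.b1 false (K.rv (K.r false h))).toNat = ∑ h, (K.b1 false h).toNat := by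
    rw [K.sum_r false (fun h => (K.b1 false (K.rv h)).toNat),
      K.sum_rv (fun h => (K.b1 false h).toNat)]
  have q3 : ∑ h, (K.b3 (K.rv (K.op (K.rv h)))).toNat = ∑ h, (K.b3 h).toNat := by
    rw [K.sum_rv (fun h => (K.b3 (K.rv (K.op h))).toNat),
      K.sum_op (fun h => (K.b3 (K.rv h)).toNat), K.sum_rv (fun h => (K.b3 h).toNat)]
  have i0 : ∑ h, (K.ims (K.rv h)).toNat = ∑ h, (K.ims h).toNat :=
    K.sum_rv (fun h => (K.ims h).toNat)
  have v1 := K.sum_r false (fun h => (K.v1 true h).toNat)
  have v1' := K.sum_r true (fun h => (K.v1 false h).toNat)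
  have v3 : ∑ h, (K.v3 true (K.r false (K.rv h))).toNat = ∑ h, (K.v3 true h).toNat := by
    rw [K.sum_rv (fun h => (K.v3 true (K.r false h)).toNat),
      K.sum_r false (fun h => (K.v3 true h).toNat)]
  have v3' : ∑ h, (K.v3 false (K.r true (K.rv h))).toNat = ∑ h, (K.v3 false h).toNat := by
    rw [K.sum_rv (fun h => (K.v3 false (K.r true h)).toNat),
      K.sum_r true (fun h => (K.v3 false h).toNat)]
  have pb : ∑ h, (K.pB (K.r false (K.rv h), true)).toNat = ∑ h, (K.pB (h, true)).toNat := by
    rw [K.sum_rv (fun h => (K.pB (K.r false h, true)).toNat),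
      K.sum_r false (fun h => (K.pB (h, true)).toNat)]
  have pb' : ∑ h, (K.pB (K.r true (K.rv h), false)).toNat = ∑ h, (K.pB (h, false)).toNat := by
    rw [K.sum_rv (fun h => (K.pB (K.r true h, false)).toNat),
      K.sum_r true (fun h => (K.pB (h, false)).toNat)]
  have px := K.sum_r true (fun h => (K.pX (h, true)).toNat)
  have px' := K.sum_r false (fun h => (K.pX (h, false)).toNat)
  -- every payer pays
  have hp : ∀ o, ∑ h, (K.pay (h, o)).toNat ≤
      ∑ h, (K.pB (h, o)).toNat + ∑ h, (K.pX (h, o)).toNat + ∑ h, (K.p4 (h, o)).toNat := by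
    intro o
    rw [← Finset.sum_add_distrib, ← Finset.sum_add_distrib]
    apply Finset.sum_le_sum
    intro h _
    by_cases hpay : K.pay (h, o) = true
    · have hst : K.Dd h = true := by
        rw [K.pay_iff] at hpay
        obtain ⟨β, o', hf, hl, _⟩ := hpay
        by_contra hD
        obtain ⟨⟨hs1, hs2⟩, ⟨k, hk⟩, hnc⟩ := hl
        cases k with
        | zero =>
          have hm : K.m (K.sl o' β).1 = 2 := by rw [show K.sl o' β = (h, o) from hk]; exact hs1
          have hv : K.vf β = true := by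
            unfold fg at hf
            simp only [Bool.and_eq_true] at hf
            exact hf.1.1.1.1.1
          have hm4 := K.vf_m hv
          simp only [KM.sl, m_r] at hm
          omega
        | succ k =>
          have : ∀ k t, K.Wk (h, o) (k+1) t → K.cont (h, o) := by
            intro k
            induction k with
            | zero => intro t ht; obtain ⟨u, hu, hc, _⟩ := ht; rw [show u = (h,o) from hu] at hc; exact hc
            | succ k ih => intro t ht; obtain ⟨u, hu, _, _⟩ := ht; exact ih u hu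
          have hc := this k _ hk
          exact hD ((K.Dd_iff o h).mpr ⟨hc.1, hs2⟩)
      have h1 : K.tr (!o) (K.r o h) = true := K.tr_r_self (K.Dd_tr hst)
      have h2 : K.tr o (K.r (!o) h) = true := by
        have := K.tr_r_self (o := !o) (K.Dd_tr (o := !o) hst)
        rwa [Bool.not_not] at this
      unfold KM.pB KM.pX KM.p4
      simp only [hpay, Bool.true_and]
      rcases K.Sg_or_Dd h1 with h3 | h3
      · simp only [h3, Bool.toNat_true]; omega
      · rcases K.Sg_or_Dd h2 with h4 | h4
        · simp only [h3, h4, Bool.and_true, Bool.toNat_true]; omega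
        · simp only [h3, h4, Bool.and_true, Bool.toNat_true]; omega
    · simp [hpay]
  have hp1 := hp true
  have hp2 := hp false
  have hfin : (0 : ℤ) ≤ ∑ h, K.wt h - 8 * n := by
    omega
  rw [wt] at hfin
  have h3 : 3 * ((univ.filter (fun h : K.H => K.tri h = true)).card : ℤ) ≤ n * (3 * n - 7) := by
    nlinarith
  zify [show 7 ≤ 3 * n by omega]
  exact h3

end Pool.Agent.Helper23.KB
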